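import Pool.Agent.U554.TW.Ab
import Pool.Agent.U554.TW.Bil

/-!
# Formal periods of the objects of an abelian category with two realisations
-/

set_option autoImplicit false

open CategoryTheory AlgebraicGeometry Pool.Agent.Y116.UV Pool.Agent.U554.TU Pool.Agent.U554.TW

universe v u w

namespace Pool.Agent.U935.KP

/-- The field of the algebraic numbers in `ℂ`. -/
abbrev Qbar : Type := algebraicClosure ℚ ℂ

/-- The data of the periods of the objects of a category `𝓜` of motives over `ℚ̄`: the de Rham
realisation over `ℚ̄`, the dual of the Betti realisation over `ℚ` and the integrals `∫_σ ω`. For the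
motive `M = H^i(X, Y)` of a pair of varieties, `dR M` is the relative algebraic de Rham cohomology
`H^i_dR(X, Y)` and `hom M` is the singular homology `H_i(X(ℂ), Y(ℂ); ℚ)`. -/
structure Realisations (𝓜 : Type u) [Category.{v} 𝓜] where
  /-- the de Rham realisation -/
  dR : 𝓜 → Type w
  [group : ∀ M, AddCommGroup (dR M)]
  [module : ∀ M, Module Qbar (dR M)]
  /-- the dual of the Betti realisation -/
  hom : 𝓜 → Type w
  [groupHom : ∀ M, AddCommGroup (hom M)]
  [moduleHom : ∀ M, Module ℚ (hom M)]
  /-- the action of the morphisms of motives on the de Rham realisations -/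
  push : ∀ {M N : 𝓜}, (M ⟶ N) → dR M → dR N
  /-- the action of the morphisms of motives on the duals of the Betti realisations -/
  pull : ∀ {M N : 𝓜}, (M ⟶ N) → hom N → hom M
  /-- the integral `∫_σ ω`, linear in `ω` over `ℚ̄` and linear in `σ` over `ℚ` -/
  int : ∀ M : 𝓜, dR M →ₗ[Qbar] hom M →ₗ[ℚ] ℂ

attribute [instance] Realisations.group Realisations.module Realisations.groupHom
  Realisations.moduleHom

/-- The known properties of the realisations and of the integrals: the dual of the Betti realisation
is a contravariant additive functor, `∫_σ f ω = ∫_{f^* σ} ω`, and the realisations are exact. -/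
structure IsRealisation {𝓜 : Type u} [Category.{v} 𝓜] [Preadditive 𝓜]
    (D : Realisations.{v, u, w} 𝓜) : Prop where
  pull_id : ∀ (M : 𝓜) (σ : D.hom M), D.pull (𝟙 M) σ = σ
  pull_comp : ∀ {L M N : 𝓜} (f : L ⟶ M) (g : M ⟶ N) (σ : D.hom N),
    D.pull (f ≫ g) σ = D.pull f (D.pull g σ)
  pull_add : ∀ {M N : 𝓜} (f : M ⟶ N) (σ τ : D.hom N), D.pull f (σ + τ) = D.pull f σ + D.pull f τ
  pull_zero : ∀ (M N : 𝓜) (σ : D.hom N), D.pull (0 : M ⟶ N) σ = 0
  int_push : ∀ {M N : 𝓜} (f : M ⟶ N) (ω : D.dR M) (σ : D.hom N),
    D.int N (D.push f ω) σ = D.int M ω (D.pull f σ)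
  epi : ∀ {M N : 𝓜} (f : M ⟶ N), Epi f → Function.Surjective (D.push f)
  mono : ∀ {M N : 𝓜} (f : M ⟶ N), Mono f → Function.Surjective (D.pull f)

variable {𝓜 : Type u} [Category.{v} 𝓜] (D : Realisations.{v, u, w} 𝓜)

/-- The symbols `(M, ω, σ)`. -/
structure Symb where
  /-- the motive -/
  M : 𝓜
  /-- the de Rham class -/
  ω : D.dR M
  /-- the homology class -/
  σ : D.hom M

/-- The free `ℚ̄`-vector space on the symbols. -/
abbrev Free : Type (max u w) := Symb D →₀ Qbar

/-- The symbol `(M, ω, σ)` as an element of the free vector space. -/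
noncomputable def sy (M : 𝓜) (ω : D.dR M) (σ : D.hom M) : Free D := Finsupp.single ⟨M, ω, σ⟩ 1

/-- The relations: linearity in `ω`, linearity in `σ`, and functoriality. -/
inductive Rel : Free D → Prop
  | left (M : 𝓜) (a : Qbar) (ω ω' : D.dR M) (σ : D.hom M) :
      Rel (sy D M (a • ω + ω') σ - (a • sy D M ω σ + sy D M ω' σ))
  | right (M : 𝓜) (q : ℚ) (ω : D.dR M) (σ σ' : D.hom M) :
      Rel (sy D M ω (q • σ + σ') - ((q : Qbar) • sy D M ω σ + sy D M ω σ'))
  | functorial {M N : 𝓜} (f : M ⟶ N) (ω : D.dR M) (σ : D.hom N) :
      Rel (sy D N (D.push f ω) σ - sy D M ω (D.pull f σ))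

/-- The span of the relations. The space of formal periods is the quotient of the free vector space
on the symbols by this subspace. -/
noncomputable def relations : Submodule Qbar (Free D) := Submodule.span Qbar {x | Rel D x}

/-- The evaluation map on the free vector space: `(M, ω, σ) ↦ ∫_σ ω`. -/
noncomputable def ev (x : Free D) : ℂ := x.sum fun s a => a * D.int s.M s.ω s.σ

/-- The evaluation map is injective on the space of formal periods. -/
def EvInjective : Prop := ∀ x : Free D, ev D x = 0 → x ∈ relations D

/-- The evaluation map is injective on the space of the formal periods of the single motive `M`: each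
`ℚ̄`-linear relation between the periods of `M` is formal. -/
def InjectiveOn (M : 𝓜) : Prop :=
  ∀ x : Free D, (∀ s, x s ≠ 0 → s.M = M) → ev D x = 0 → x ∈ relations D

/-- If an integral `∫_σ ω` of `M` vanishes, then the formal period `(M, ω, σ)` is zero. -/
def VanishingOn (M : 𝓜) : Prop :=
  ∀ (ω : D.dR M) (σ : D.hom M), D.int M ω σ = 0 → sy D M ω σ ∈ relations D

/-- `N` is a subquotient of `M`. -/
def IsSubquotient (N M : 𝓜) : Prop := ∃ (L : 𝓜) (i : L ⟶ M) (p : L ⟶ N), Mono i ∧ Epi p

variable [Abelian 𝓜]

/-- The known properties of the category `𝓜` of Nori motives over `ℚ̄`, of their realisations `D` and of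
the motives `O b m X = H_{m + 2 b}(X_ℚ̄)(b)` (Borel-Moore homology) for the separated schemes `X` of
finite type over `ℚ`: those in `IsAbTheory` (long exact sequences, homotopy invariance, ...) and

* `realisation`: the realisations are exact, the integral is bilinear and functorial;
* `torsor`: homotopy invariance for affine bundles;
* `jouanolou`: smooth separated schemes of finite type have affine bundles with affine total space
  (Jouanolou, Thomason);
* `boundary`: `H_{m + 2 b}(X)(b)` is a direct factor of `H_{m + 1 + 2 b}(X × 𝔾_m)(b)` (product with the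
  class of the coordinate, boundary at `0`);
* `generated`: every Nori motive over `ℚ̄` is a subquotient of a motive `H^i(X_ℚ̄)(j)`, `X` smooth over
  `ℚ`. (By Nori and resolution of singularities it is a subquotient of `H^i(X, Y)(j)`, `X` smooth over
  `ℚ̄` and `Y` a divisor with strict normal crossings with components `Y_1, …, Y_r`, given by sections
  `f_l` of line bundles; then `H^i(X, Y)(-r)` is a direct factor of `H^{i + r}(M)` for the smooth
  variety `M : u_l t_l = f_l(x)`, `l ≤ r`, over `X`. A variety over `ℚ̄` comes from a variety over a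
  number field, so it is open and closed in `X_ℚ̄` for a variety `X` over `ℚ`.) -/
structure IsNori (O : ℤ → ℤ → Sch ℚ → 𝓜) : Prop extends IsAbTheory O where
  realisation : IsRealisation D
  torsor : BundleInvariant (abRel 𝓜) O
  jouanolou : ∀ X : Sch ℚ, FT True X → Smooth X.hom → HasAffineBundle X
  boundary : ∀ (A : Type) [CommRing A] [Algebra ℚ A] [Algebra.FiniteType ℚ A] (b m : ℤ),
    Nonempty (Retract (O b m (aff ℚ A)) (O b (m + 1) (aff ℚ (LaurentPolynomial A))))
  generated : ∀ M : 𝓜, ∃ (X : Sch ℚ) (b m : ℤ), FT True X ∧ Smooth X.hom ∧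
    IsSubquotient M (O b m X)

end Pool.Agent.U935.KP
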