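import Pool.Agent.U935.KP.Defs

/-!
# Formal periods: the spaces of the formal periods of the single motives
-/

set_option autoImplicit false

open CategoryTheory AlgebraicGeometry MvPolynomial Pool.Agent.Y116.UV Pool.Agent.U554.TU
  Pool.Agent.U554.TW
open scoped ZeroObject

universe v u w

namespace Pool.Agent.U935.KP

section

variable {𝓜 : Type u} [Category.{v} 𝓜] {D : Realisations.{v, u, w} 𝓜}

lemma ev_eq (x : Free D) :
    ev D x = Finsupp.lift ℂ Qbar (Symb D) (fun s => D.int s.M s.ω s.σ) x := by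
  rw [Finsupp.lift_apply]
  rfl

lemma ev_add (x y : Free D) : ev D (x + y) = ev D x + ev D y := by
  rw [ev_eq, ev_eq, ev_eq, map_add]

lemma ev_sub (x y : Free D) : ev D (x - y) = ev D x - ev D y := by
  rw [ev_eq, ev_eq, ev_eq, map_sub]

lemma ev_smul (a : Qbar) (x : Free D) : ev D (a • x) = a * ev D x := by
  rw [ev_eq, ev_eq, map_smul]
  rfl

lemma ev_sy (M : 𝓜) (ω : D.dR M) (σ : D.hom M) : ev D (sy D M ω σ) = D.int M ω σ := by
  rw [ev, sy, Finsupp.sum_single_index] <;> simp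

lemma mk_eq_iff {x y : Free D} :
    (relations D).mkQ x = (relations D).mkQ y ↔ x - y ∈ relations D := by
  rw [Submodule.mkQ_apply, Submodule.mkQ_apply, Submodule.Quotient.eq]

lemma mk_eq_zero {x : Free D} : (relations D).mkQ x = 0 ↔ x ∈ relations D := by
  rw [Submodule.mkQ_apply, Submodule.Quotient.mk_eq_zero]

lemma mk_functorial {M N : 𝓜} (f : M ⟶ N) (ω : D.dR M) (σ : D.hom N) :
    (relations D).mkQ (sy D N (D.push f ω) σ) = (relations D).mkQ (sy D M ω (D.pull f σ)) :=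
  mk_eq_iff.mpr (Submodule.subset_span (Rel.functorial f ω σ))

lemma mk_left (M : 𝓜) (a : Qbar) (ω ω' : D.dR M) (σ : D.hom M) :
    (relations D).mkQ (sy D M (a • ω + ω') σ) =
      a • (relations D).mkQ (sy D M ω σ) + (relations D).mkQ (sy D M ω' σ) := by
  rw [← map_smul, ← map_add]
  exact mk_eq_iff.mpr (Submodule.subset_span (Rel.left M a ω ω' σ))

lemma mk_right (M : 𝓜) (q : ℚ) (ω : D.dR M) (σ σ' : D.hom M) :
    (relations D).mkQ (sy D M ω (q • σ + σ')) =
      (q : Qbar) • (relations D).mkQ (sy D M ω σ) + (relations D).mkQ (sy D M ω σ') := by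
  rw [← map_smul, ← map_add]
  exact mk_eq_iff.mpr (Submodule.subset_span (Rel.right M q ω σ σ'))

lemma mk_add_left (M : 𝓜) (ω ω' : D.dR M) (σ : D.hom M) :
    (relations D).mkQ (sy D M (ω + ω') σ) =
      (relations D).mkQ (sy D M ω σ) + (relations D).mkQ (sy D M ω' σ) := by
  have h := mk_left (D := D) M 1 ω ω' σ
  rwa [one_smul, one_smul] at h

lemma mk_add_right (M : 𝓜) (ω : D.dR M) (σ σ' : D.hom M) :
    (relations D).mkQ (sy D M ω (σ + σ')) =
      (relations D).mkQ (sy D M ω σ) + (relations D).mkQ (sy D M ω σ') := by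
  have h := mk_right (D := D) M 1 ω σ σ'
  rwa [one_smul, Rat.cast_one, one_smul] at h

lemma mk_zero_right (M : 𝓜) (ω : D.dR M) : (relations D).mkQ (sy D M ω 0) = 0 := by
  have h := mk_add_right (D := D) M ω 0 0
  rw [add_zero] at h
  exact left_eq_add.mp h

lemma mk_zero_left (M : 𝓜) (σ : D.hom M) : (relations D).mkQ (sy D M 0 σ) = 0 := by
  have h := mk_add_left (D := D) M 0 0 σ
  rw [add_zero] at h
  exact left_eq_add.mp h

lemma mk_smul_left (M : 𝓜) (a : Qbar) (ω : D.dR M) (σ : D.hom M) :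
    (relations D).mkQ (sy D M (a • ω) σ) = a • (relations D).mkQ (sy D M ω σ) := by
  have h := mk_left (D := D) M a ω 0 σ
  rwa [add_zero, mk_zero_left, add_zero] at h

end

section

variable {𝓜 : Type u} [Category.{v} 𝓜] [Preadditive 𝓜] {D : Realisations.{v, u, w} 𝓜}

lemma ev_eq_zero (hD : IsRealisation D) {x : Free D} (hx : x ∈ relations D) : ev D x = 0 := by
  rw [relations] at hx
  induction hx using Submodule.span_induction with
  | mem x h =>
    cases h with
    | left M a ω ω' σ =>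
      rw [ev_sub, ev_add, ev_smul, ev_sy, ev_sy, ev_sy, map_add, map_smul, LinearMap.add_apply,
        LinearMap.smul_apply, sub_eq_zero]
      rfl
    | right M q ω σ σ' =>
      rw [ev_sub, ev_add, ev_smul, ev_sy, ev_sy, ev_sy, map_add, map_smul, sub_eq_zero,
        Algebra.smul_def]
      simp
    | functorial f ω σ => rw [ev_sub, ev_sy, ev_sy, hD.int_push, sub_self]
  | zero => rw [ev_eq, map_zero]
  | add x y _ _ h1 h2 => rw [ev_add, h1, h2, add_zero]
  | smul a x _ h => rw [ev_smul, h, mul_zero]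

lemma VanishingOn.of_subquotient (hD : IsRealisation D) {N M : 𝓜} (h : IsSubquotient N M)
    (hM : VanishingOn D M) : VanishingOn D N := by
  obtain ⟨L, i, p, hi, hp⟩ := h
  intro ν τ hν
  obtain ⟨l, rfl⟩ := hD.epi p hp ν
  obtain ⟨τ', h1⟩ := hD.mono i hi (D.pull p τ)
  rw [← mk_eq_zero, mk_functorial, ← h1, ← mk_functorial, mk_eq_zero]
  apply hM
  rw [hD.int_push, h1, ← hD.int_push]
  exact hν

end

section

variable {𝓜 : Type u} [Category.{v} 𝓜] [Abelian 𝓜] {D : Realisations.{v, u, w} 𝓜}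

/-- Each formal period is the class of one symbol. -/
theorem exists_symbol (hD : IsRealisation D) (y : Free D) :
    ∃ (M : 𝓜) (ω : D.dR M) (σ : D.hom M),
      (relations D).mkQ y = (relations D).mkQ (sy D M ω σ) := by
  induction y using Finsupp.induction_linear with
  | zero => exact ⟨0, 0, 0, by rw [map_zero, mk_zero_right]⟩
  | add y z hy hz =>
    obtain ⟨M, ω, σ, h1⟩ := hy
    obtain ⟨N, ν, τ, h2⟩ := hz
    refine ⟨M ⊞ N, D.push Limits.biprod.inl ω + D.push Limits.biprod.inr ν,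
      D.pull Limits.biprod.fst σ + D.pull Limits.biprod.snd τ, ?_⟩
    have e1 : D.pull (Limits.biprod.inl : M ⟶ M ⊞ N) (D.pull Limits.biprod.fst σ) = σ := by
      rw [← hD.pull_comp, Limits.biprod.inl_fst, hD.pull_id]
    have e2 : D.pull (Limits.biprod.inl : M ⟶ M ⊞ N) (D.pull Limits.biprod.snd τ) = 0 := by
      rw [← hD.pull_comp, Limits.biprod.inl_snd, hD.pull_zero]
    have e3 : D.pull (Limits.biprod.inr : N ⟶ M ⊞ N) (D.pull Limits.biprod.fst σ) = 0 := by
      rw [← hD.pull_comp, Limits.biprod.inr_fst, hD.pull_zero]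
    have e4 : D.pull (Limits.biprod.inr : N ⟶ M ⊞ N) (D.pull Limits.biprod.snd τ) = τ := by
      rw [← hD.pull_comp, Limits.biprod.inr_snd, hD.pull_id]
    rw [map_add, h1, h2, mk_add_left, mk_functorial, mk_functorial, hD.pull_add, hD.pull_add,
      e1, e2, e3, e4, add_zero, zero_add]
  | single s a =>
    refine ⟨s.M, a • s.ω, s.σ, ?_⟩
    have h : Finsupp.single s a = a • sy D s.M s.ω s.σ := by
      rw [sy, Finsupp.smul_single, smul_eq_mul, mul_one]
    rw [h, map_smul, mk_smul_left]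

/-- The evaluation map is injective if and only if all vanishing integrals are formal consequences of
the relations. -/
theorem injective_iff_vanishing (hD : IsRealisation D) :
    EvInjective D ↔ ∀ M : 𝓜, VanishingOn D M := by
  constructor
  · intro h M ω σ h0
    apply h
    rw [ev_sy, h0]
  · intro h x hx
    obtain ⟨M, ω, σ, h1⟩ := exists_symbol hD x
    have h2 : ev D (x - sy D M ω σ) = 0 := ev_eq_zero hD (mk_eq_iff.mp h1)
    rw [ev_sub, hx, ev_sy, zero_sub, neg_eq_zero] at h2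
    rw [← mk_eq_zero, h1, mk_eq_zero]
    exact h M ω σ h2

omit [Abelian 𝓜] in
lemma EvInjective.injectiveOn (h : EvInjective D) (M : 𝓜) : InjectiveOn D M :=
  fun x _ => h x

omit [Abelian 𝓜] in
lemma InjectiveOn.vanishingOn {M : 𝓜} (h : InjectiveOn D M) : VanishingOn D M := by
  classical
  intro ω σ h0
  refine h _ (fun s hs => ?_) (by rw [ev_sy, h0])
  by_contra hne
  apply hs
  rw [sy, Finsupp.single_apply, if_neg]
  rintro rfl
  exact hne rfl

variable {O : ℤ → ℤ → Sch ℚ → 𝓜}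

/-- The assertion passes to subquotients. -/
def Hereditary (P : 𝓜 → Prop) : Prop := ∀ N M : 𝓜, IsSubquotient N M → P M → P N

omit [Abelian 𝓜] in
lemma Hereditary.inherited [Abelian 𝓜] {P : 𝓜 → Prop} (hP : Hereditary P) :
    Inherited (abRel 𝓜) P := by
  rintro X Y ⟨r⟩ hY
  refine hP _ _ ⟨X, r.i, 𝟙 X, ?_, inferInstance⟩ hY
  have : Mono (r.i ≫ r.r) := by
    rw [r.retract]
    infer_instance
  exact mono_of_mono r.i r.r

/-- The assertion for the affine schemes passes to the lower degrees. -/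
lemma descend (hO : IsNori D O) {P : 𝓜 → Prop} (hP : Hereditary P) (d : ℕ) (m : ℤ)
    (h : ∀ (A : Type) [CommRing A] [Algebra ℚ A] [Algebra.FiniteType ℚ A] (b : ℤ),
      P (O b (m + d) (aff ℚ A))) :
    ∀ (A : Type) [CommRing A] [Algebra ℚ A] [Algebra.FiniteType ℚ A] (b : ℤ),
      P (O b m (aff ℚ A)) := by
  induction d with
  | zero => simpa using h
  | succ d ih =>
    apply ih
    intro A _ _ _ b
    have h2 := hO.boundary A b (m + d)
    have h3 : Algebra.FiniteType ℚ (LaurentPolynomial A) := ft_laurent A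
    have h4 := h (LaurentPolynomial A) b
    rw [show m + ((d + 1 : ℕ) : ℤ) = m + d + 1 from by push_cast; ring] at h4
    exact hP.inherited _ _ h2 h4

/-- From the affine schemes to all motives. -/
lemma all_motives (hO : IsNori D O) {P : 𝓜 → Prop} (hP : Hereditary P) (S : Set ℤ)
    (hS : ∀ N : ℤ, ∃ n ∈ S, N ≤ n)
    (h : ∀ n ∈ S, ∀ (A : Type) [CommRing A] [Algebra ℚ A] [Algebra.FiniteType ℚ A] (b : ℤ),
      P (O b (n - 1) (aff ℚ A))) (M : 𝓜) : P M := by
  obtain ⟨X, b, m, hX, hs, hM⟩ := hO.generated M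
  refine hP _ _ hM ?_
  refine bundle_of_affine hO.torsor hP.inherited m ?_ X hX (hO.jouanolou X hX hs) b
  obtain ⟨n, hn, hm⟩ := hS (m + 1)
  exact descend hO hP (n - 1 - m).toNat m fun A _ _ _ b => by
    rw [show m + ((n - 1 - m).toNat : ℤ) = n - 1 from by omega]
    exact h n hn A b

lemma presents : Presents ({0, 1} : Set ℚ) := Pool.Agent.Q193.LT.presents_frac fun x =>
  ⟨x.den, x.num, IsUnit.mk0 _ (by exact_mod_cast x.den_ne_zero), by
    push_cast
    rw [mul_comm]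
    exact (Rat.mul_den_eq_num x).symm⟩

/-- From the systems of bilinear equations with coefficients `0` and `1` to all motives. -/
theorem all_of_bil (hO : IsNori D O) {P : 𝓜 → Prop} (hP : Hereditary P) (S : Set ℤ)
    (hS : ∀ N : ℤ, ∃ n ∈ S, N ≤ n)
    (h : ∀ (a₁ a₂ a₃ : ℕ) (T : Fin a₁ → Fin a₂ → Fin a₃ → ℚ),
        (∀ i j l, T i j l = 0 ∨ T i j l = 1) → ∀ b : ℤ, ∀ n ∈ S, P (O b n (bilS T))) (M : 𝓜) :
    P M := by
  refine all_motives hO hP {n | n - 1 ∈ S} ?_ ?_ M
  · intro N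
    obtain ⟨n, hn, hN⟩ := hS N
    exact ⟨n + 1, by simpa using hn, by omega⟩
  · intro n hn A _ _ _ b
    exact affine_of_bil hO.toIsAbTheory.isTheory hP.inherited (Or.inl rfl) (Or.inr rfl) presents 0
      (n - 1) (fun a₁ a₂ a₃ T hT' j _ => h a₁ a₂ a₃ T hT' _ _ hn) A b

/-- From the cubic hypersurfaces `∑ x_i y_j z_k = 1` to all motives. -/
theorem all_of_hyp (hO : IsNori D O) {P : 𝓜 → Prop} (hP : Hereditary P) (S : Set ℤ)
    (hS : ∀ N : ℤ, ∃ n ∈ S, N ≤ n) (s : ℕ)
    (h : ∀ (a₁ a₂ a₃ : ℕ) (H : Finset (Fin a₁ × Fin a₂ × Fin a₃)) (j : ℕ), s ≤ j → ∀ n ∈ S,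
      P (O (a₁ + a₂ + a₃ - 1 - j) n (tripS ℚ H))) (M : 𝓜) : P M := by
  refine all_motives hO hP S hS (fun n hn A _ _ _ b => ?_) M
  refine affine_of_hyp hO.toIsAbTheory.isTheory hP.inherited (Or.inl rfl) (Or.inr rfl) presents s
    (n - 1) (fun a₁ a₂ a₃ T hT' j hj => ?_) A b
  rw [sub_add_cancel]
  obtain ⟨H, hH⟩ := hyp_zero_one T hT'
  rw [hH]
  exact h a₁ a₂ a₃ H j hj n hn

theorem main (hO : IsNori D O) (S : Set ℤ) (hS : ∀ N : ℤ, ∃ n ∈ S, N ≤ n) (s : ℕ) :
    List.TFAE [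
      EvInjective D,
      ∀ (a₁ a₂ a₃ : ℕ) (T : Fin a₁ → Fin a₂ → Fin a₃ → ℚ),
        (∀ i j l, T i j l = 0 ∨ T i j l = 1) → ∀ b : ℤ, ∀ n ∈ S,
          VanishingOn D (O b n (bilS T)),
      ∀ (a₁ a₂ a₃ : ℕ) (H : Finset (Fin a₁ × Fin a₂ × Fin a₃)) (j : ℕ), s ≤ j → ∀ n ∈ S,
        InjectiveOn D (O (a₁ + a₂ + a₃ - 1 - j) n (tripS ℚ H)),
      ∀ (a₁ a₂ a₃ : ℕ) (H : Finset (Fin a₁ × Fin a₂ × Fin a₃)) (j : ℕ), s ≤ j → ∀ n ∈ S,
        VanishingOn D (O (a₁ + a₂ + a₃ - 1 - j) n (tripS ℚ H))] := by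
  have hD := hO.realisation
  have hP : Hereditary (VanishingOn D) := fun _ _ h hM => hM.of_subquotient hD h
  tfae_have 1 → 2 := fun h _ _ _ _ _ _ _ _ => (injective_iff_vanishing hD).mp h _
  tfae_have 1 → 3 := fun h _ _ _ _ _ _ _ _ => h.injectiveOn _
  tfae_have 3 → 4 := fun h a₁ a₂ a₃ H j hj n hn => (h a₁ a₂ a₃ H j hj n hn).vanishingOn
  tfae_have 2 → 1 := fun h =>
    (injective_iff_vanishing hD).mpr (all_of_bil hO hP S hS h)
  tfae_have 4 → 1 := fun h =>
    (injective_iff_vanishing hD).mpr (all_of_hyp hO hP S hS s h)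
  tfae_finish

end

end Pool.Agent.U935.KP
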